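import Pool.Agent.Results.MP_0b9e0b_ag.MultiquadraticProducts
import Pool.Agent.V11291.RG.Tow

/-!
# Abel–Jacobi maps of products of twists over arbitrary multiquadratic extensions of the layers of the
# cyclotomic `ℤ₃`-extension: exact proportions, and infinite towers for each of these varieties

`E` is the modular curve `X_0(14)`, an elliptic curve without complex multiplication with one rational
point of order two, and `E_M` is its quadratic twist by `M`.  The class `Adm` consists of the squarefree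
integers, positive or negative, `1` modulo `4`, squares modulo `7`, whose prime divisors split
completely in `ℚ(i, √2, √-7)` or are inert in `ℚ(√2)` and in `ℚ(√-7)`, and are inert in the cyclotomic
`ℤ₃`-extension of `ℚ`.

For a finite subset `T` of the class we consider the abelian varieties `X` over `ℚ` which are products
of powers of the curves `E_M`, `M ∈ T`, and the motives `h¹(X)(1)` over the fields `F = K(√d : d ∈ S)`,
where `S` is a finite subset of the class, independent modulo squares, and `K` is a layer of the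
cyclotomic `ℤ₃`-extension of `ℚ`.

* If for the squarefree parts `D'` of the products `M ∏_{d ∈ U} d`, `M ∈ T`, `U ⊆ S`, the ranks of
  `E_{D'}(K)` are zero and `Ш(E_{D'}/K)[2] = 0` then for all `K` and the fields `F` the groups
  `E_M(F) ⊗ ℚ₂` and `H¹_f(F, V₂ E_M)`, `M ∈ T`, are zero.  So the 2-adic Abel–Jacobi map (the Kummer map)
  of `h¹(X)(1)` over `F` is an isomorphism onto `H¹_f`.
* For each `S` and each family `B` of elements of the class, different modulo `S` and squares, this
  holds for the set `T` of the squarefree parts of the `b D`, `b ∈ B`, for the proportion exactly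
  `c^(#B 2^#S)` of the `D`, `c = ∏_{i ≥ 0} (1 - 2^{-(2 i + 1)}) = 0.419...`.
* For each pair `(T, S)` with this property there are infinite towers `S ⊂ S_1 ⊂ S_2 ⊂ …` with the
  same property, the signs of the new elements prescribed.
-/

set_option autoImplicit false

open NumberField IsDedekindDomain Filter Topology

namespace Pool.Agent.Results.MP_009fd8_ag.LayersProducts

open scoped Classical

open Pool.Agent.TH841.NF.D (Sha)

open Pool.Agent.Results.MP_787500_nt.LayersBlochKatoLaw (E base factor rank twist multiquadratic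
  cyclotomic BothZero both_zero Adm Small count cc Proportion Many adm_iff mat_eq small_iff)

open Pool.Agent.Results.MP_0b9e0b_ag.MultiquadraticProducts (IsBase IsFamily IsTwists Criterion
  cl_iff crit_ex exists_twists)

/-- `T` is a subset of the class, and for the squarefree parts `D'` of the products `M ∏_{d ∈ U} d`,
`M ∈ T`, `U ⊆ S`, the rank of `E_{D'}` is zero and `Ш(E_{D'})[2] = 0`, over all the layers of the
cyclotomic `ℤ₃`-extension of `ℚ`. -/
def Good (T S : Finset ℤ) : Prop := (∀ M ∈ T, Adm M) ∧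
  ∀ M ∈ T, ∀ U ⊆ S, ∀ D' k : ℤ, Adm D' → M * ∏ d ∈ U, d = D' * k ^ 2 → Small D'

/-- For all the layers `K` of the cyclotomic `ℤ₃`-extension of `ℚ` (the subfields of odd degree of the
`3 ^ (m + 1)`-th cyclotomic fields) and `F = K(√d : d ∈ S)`, a field of degree `2^#S [K : ℚ]`, the groups
`E_M(F) ⊗ ℚ_2` and `H¹_f(F, V_2 E_M)` are zero for all `M ∈ T`, and the 2-primary part of `Ш(E_M/F)` is
killed by `2^#S`. -/
def Holds (T S : Finset ℤ) : Prop :=
  ∀ (m : ℕ) (K F : IntermediateField ℚ ℂ) [NumberField K] [NumberField F],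
    K ≤ cyclotomic (3 ^ (m + 1)) → Odd (Module.finrank ℚ K) → F = multiquadratic S ⊔ K →
    Module.finrank ℚ F = 2 ^ S.card * Module.finrank ℚ K ∧
    ∀ M ∈ T, BothZero (base (twist M) F) ∧
      ∀ (k : ℕ) (y : Sha (base (twist M) F)), 2 ^ k • y = 0 → 2 ^ S.card • y = 0

/-- The elements of `T` are different modulo squares and products of elements of `S`. -/
def Apart (T S : Finset ℤ) : Prop :=
  ∀ M ∈ T, ∀ M' ∈ T, M ≠ M' → ∀ U ⊆ S, ¬ IsSquare (M * M' * ∏ d ∈ U, d)

lemma good_iff {T S : Finset ℤ} (hS : IsBase S) (hT : ∀ M ∈ T, Adm M) :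
    Good T S ↔ Pool.Agent.V11291.RG.GoodT T S := by
  constructor
  · rintro ⟨-, h⟩ M hM U hU D' k hD' hk
    have h3 : Adm D' := by
      refine (adm_iff D').2 ⟨hD', fun p hp hpd => ?_⟩
      have h1 : (p : ℤ) ∣ M * ∏ d ∈ U, d := by
        rw [hk]
        exact Dvd.dvd.mul_right hpd _
      rcases (Nat.prime_iff_prime_int.1 hp).dvd_or_dvd h1 with h2 | h2
      · exact ((adm_iff M).1 (hT M hM)).2 p hp h2
      · obtain ⟨d, hd, hd'⟩ := (Nat.prime_iff_prime_int.1 hp).exists_mem_finset_dvd h2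
        exact ((adm_iff d).1 (hS.1 d (hU hd))).2 p hp hd'
    have h4 := (small_iff D' h3).1 (h M hM U hU D' k h3 hk)
    rwa [mat_eq D' h3] at h4
  · intro h
    refine ⟨hT, fun M hM U hU D' k hD' hk => ?_⟩
    rw [small_iff D' hD', mat_eq D' hD']
    exact h M hM U hU D' k ((adm_iff D').1 hD').1 hk

theorem holds_of {T S : Finset ℤ} (hS : IsBase S) (hT : Good T S) : Holds T S := by
  intro m K F _ _ hK hodd hF
  have hex := (good_iff hS hT.1).1 hT
  have hS' : ∀ d ∈ S, Pool.Agent.V11291.RG.Cl d := fun d hd => (cl_iff d).1 (hS.1 d hd)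
  have hM : ∀ M ∈ T, ∀ U ⊆ S, ∃ C j : ℤ, Pool.Agent.Y687.MQ.AdmD C ∧
      Pool.Agent.Y682.YQ.H9 C ∧ (Pool.Agent.Y687.MQ.matD C).det ≠ 0 ∧ j ≠ 0 ∧
      M * ∏ d ∈ U, d = C * j ^ 2 := by
    intro M hMT U hU
    obtain ⟨C₁, j₁, g1, g2, g3, g4⟩ := Pool.Agent.V11291.JH.prodS (S := U)
      fun d hd => ⟨(hS' d (hU hd)).1, (hS' d (hU hd)).2⟩
    obtain ⟨C, j, k1, k2, k3, k4, -⟩ := Pool.Agent.Y682.YS.mulD ((adm_iff M).1 (hT.1 M hMT)).1
      ((adm_iff M).1 (hT.1 M hMT)).2 g1 g2
    have e1 : M * ∏ d ∈ U, d = C * (j * j₁) ^ 2 := by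
      rw [g4, ← mul_assoc, k4]
      ring
    exact ⟨C, j * j₁, k1, k2, hex M hMT U hU C (j * j₁) k1 e1, mul_ne_zero k3 g3, e1⟩
  have hfd : FiniteDimensional ℚ (Pool.Agent.Y682.XD.mq S) :=
    (Pool.Agent.V11291.RG.rr_sub S fun d hd => (hS' d hd).1.1.ne_zero).1
  have hN : NumberField (Pool.Agent.Y682.XD.mq S) :=
    { to_charZero := inferInstance, to_finiteDimensional := hfd }
  obtain ⟨d, hinj, himg⟩ := Pool.Agent.V11291.RG.enum S
  have hdS : ∀ i, d i ∈ S := fun i => by
    have h := Finset.mem_image_of_mem d (Finset.mem_univ i)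
    rwa [himg] at h
  have hdeg := Pool.Agent.V11291.JH.finrank_sup d (fun i => (hS' _ (hdS i)).1.1.ne_zero)
    (Pool.Agent.V11291.RG.ind_of hinj himg hS.2) (Pool.Agent.Y682.XD.mq S) K F hodd
    (Pool.Agent.V11291.RG.mq_eq himg) hF
  refine ⟨hdeg, fun M hMT => ?_⟩
  have hM4 : M % 4 = 1 := (hT.1 M hMT).2.1
  have hr : rank F (twist M) = 0 := by
    have h12 := (Pool.Agent.Y682.XF.trans_D F hM4).1
    refine h12.trans ?_
    refine (Pool.Agent.V11291.RG.rr_subK K S fun d hd => (hS' d hd).1.1.ne_zero).2 F hF M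
      ((adm_iff M).1 (hT.1 M hMT)).1.1.ne_zero fun U hU => ?_
    obtain ⟨C, j, g1, g2, g3, g4, g5⟩ := hM M hMT U hU
    rw [g5]
    exact Pool.Agent.V11291.RG.rr_goodK m K hK hodd g1 g2 g3 g4
  have hsha : ∀ (k : ℕ) (y : Sha (base (twist M) F)), 2 ^ k • y = 0 → 2 ^ S.card • y = 0 := by
    refine Pool.Agent.V11291.RG.sha_CD d (fun i => (hS' _ (hdS i)).1.1.ne_zero) hM4 (fun U => ?_) m
      K hK hodd (Pool.Agent.Y682.XD.mq S) F (Pool.Agent.V11291.RG.mq_eq himg) hF
    obtain ⟨C, j, g1, g2, g3, g4, g5⟩ := hM M hMT (U.image d) (by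
      intro x hx
      obtain ⟨i, -, rfl⟩ := Finset.mem_image.1 hx
      exact hdS i)
    rw [Finset.prod_image fun i _ j _ h => hinj h] at g5
    exact ⟨C, j, g1, g2, g3, g4, g5⟩
  exact ⟨both_zero F (twist M) (Pool.Agent.Y682.YQ.wm_ne hM4) hr S.card hsha, hsha⟩

/-- the squarefree parts of the `b D`, `b ∈ B`, if `D` satisfies the criterion -/
lemma good_twists {B S T : Finset ℤ} {D : ℤ} (hc : Criterion B S D) (hT : IsTwists B D T) :
    Good T S := by
  refine ⟨fun M hM => ((hT M).1 hM).1, fun M hM U hU D' k hD' hk => ?_⟩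
  obtain ⟨h1, b, hb, x, hx⟩ := (hT M).1 hM
  refine hc b hb U hU D' (x * k) hD' ?_
  rw [← mul_assoc, hx]
  have e2 : M * x ^ 2 * ∏ d ∈ U, d = (M * ∏ d ∈ U, d) * x ^ 2 := by ring
  rw [e2, hk]
  ring

/-- **Main theorem.**  `S` is a finite subset of the class, independent modulo squares.
(1) If `Good T S` holds then `Holds T S` does: for all the layers `K` of the cyclotomic `ℤ₃`-extension of
`ℚ`, `F = K(√d : d ∈ S)` and `M ∈ T` the groups `E_M(F) ⊗ ℚ_2` and `H¹_f(F, V_2 E_M)` are zero.
(2) Let `B` be a finite subset of the class whose elements are different modulo squares and products of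
elements of `S`.  For each `D` of the class the set `T` of the squarefree parts of the `b D`, `b ∈ B`,
has `#B` elements, and `Criterion B S D` implies `Good T S`; the proportion of the `D` with
`Criterion B S D` is exactly `c^(#B 2^#S)`, among the positive `D` of the class, ordered by absolute
value, and also among the negative ones; `0.4194 < c < 0.4195`.
(3) Let `Good T S` and `Apart T S` hold.  Then for each sequence of signs there are different numbers
`d_0, d_1, …` with these signs, not in `S`, such that for all `n` the set `S_n = S ∪ {d_0, …, d_{n-1}}` is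
a subset of the class, independent modulo squares, `Apart T S_n`, and `Holds T S_n`. -/
theorem result :
    (∀ T S : Finset ℤ, IsBase S → Good T S → Holds T S) ∧
    (∀ S B : Finset ℤ, IsBase S → IsFamily B S →
      (∀ D : ℤ, Adm D → ∃ T : Finset ℤ, IsTwists B D T ∧ T.card = B.card ∧
        (Criterion B S D → Good T S)) ∧
      ∀ s : ℤ, (s = 1 ∨ s = -1) → Many s ∧
        Proportion (Criterion B S) s (cc ^ (B.card * 2 ^ S.card))) ∧
    (0.4194 < cc ∧ cc < 0.4195) ∧
    ∀ T S : Finset ℤ, IsBase S → Good T S → Apart T S → ∀ σ : ℕ → ℤ, (∀ i, σ i = 1 ∨ σ i = -1) →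
      ∃ d : ℕ → ℤ, (∀ i, 0 < σ i * d i) ∧ Function.Injective d ∧ (∀ i, d i ∉ S) ∧
        ∀ n, IsBase (S ∪ (Finset.range n).image d) ∧ Apart T (S ∪ (Finset.range n).image d) ∧
          Holds T (S ∪ (Finset.range n).image d) := by
  refine ⟨fun T S hS hT => holds_of hS hT, fun S B hS hB => ⟨fun D hD => ?_, fun s hs => ?_⟩,
    Pool.Agent.Y948.CQ.t_C2.2.2.2, fun T S hS hT hA σ hσ => ?_⟩
  · obtain ⟨T, h1, h2⟩ := exists_twists hB hD
    exact ⟨T, h1, h2, fun hc => good_twists hc h1⟩
  · obtain ⟨h1, h2⟩ := Pool.Agent.Results.MP_0b9e0b_ag.MultiquadraticProducts.result.2.1 s hs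
    exact ⟨h1, h2 S B hS hB⟩
  · obtain ⟨d, h1, h2, h3, h4⟩ := Pool.Agent.V11291.RG.towerB (B := T) (S := S)
      (fun b hb => (cl_iff b).1 (hT.1 b hb)) (fun d hd => (cl_iff d).1 (hS.1 d hd)) hS.2 hA σ hσ
    refine ⟨d, h1, h2, h3, fun n => ?_⟩
    have hb : IsBase (S ∪ (Finset.range n).image d) :=
      ⟨fun x hx => (cl_iff x).2 ((h4 n).1 x hx), (h4 n).2.1⟩
    refine ⟨hb, (h4 n).2.2.1, holds_of hb ?_⟩
    exact (good_iff hb hT.1).2 (Pool.Agent.V11291.RG.goodT_tower ((good_iff hS hT.1).1 hT) h2 h3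
      (fun n => (h4 n).2.2.2) n)

end Pool.Agent.Results.MP_009fd8_ag.LayersProducts
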