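import Mathlib
import Pool.Agent.Results.MP_009fd8_ag.LayersProducts
import Pool.Agent.V11161.BH.ParH

/-!
# Abel–Jacobi maps of products of twists over the layers of the cyclotomic `ℤ₃`-extension: extension of
# the multiquadratic field by clusters of primes

`E` is the modular curve `X_0(14)`, an elliptic curve without complex multiplication with one rational
point of order two, and `E_M` is its quadratic twist by `M`. The class `Adm` consists of the squarefree
integers, positive or negative, `1` modulo `4`, squares modulo `7`, whose prime divisors split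
completely in `ℚ(i, √2, √-7)` or are inert in `ℚ(√2)` and in `ℚ(√-7)`, and are inert in the cyclotomic
`ℤ₃`-extension of `ℚ`. `Small M`: over all the layers `K` of this extension the rank of `E_M` is zero and
`Ш(E_M/K)[2] = 0`. Let `T`, `S₀` be finite subsets of the class, `S₀` independent modulo squares. `Good T S₀`:
the squarefree parts of all the products `M ∏_{d ∈ U} d`, `M ∈ T`, `U ⊆ S₀`, are small (for `S₀ = ∅`: all the
`M ∈ T` are small). `Holds T S`: for all the layers `K` and `F = K(√d : d ∈ S)`, of degree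
`2^#S [K : ℚ]`, the groups `E_M(F) ⊗ ℚ₂` and `H¹_f(F, V₂ E_M)`, `M ∈ T`, are zero, so that the 2-adic
Abel–Jacobi map (the Kummer map) of `h¹(X)(1)` over `F` is an isomorphism onto `H¹_f`, `X` being any
product of powers of the curves `E_M`, and `2^#S` kills the 2-primary parts of `Ш(E_M/F)`.

The theorem: ANY pair `T, S₀`, good or not, keeps this property if `S₀` is extended by the primes of a
cluster. Let `P = 504 ∏_{M ∈ T} |M| ∏_{d ∈ S₀} |d|`, and let `c` be prime to `P`, `3` modulo `8`, a nonsquare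
modulo `7`, not `± 1` modulo `9`, and a square modulo the prime divisors `l = 1` modulo `8` of the
elements of `T` and `S₀`; there are such `c`. For all `k` and `η > 0` there are `z`, `d`, `C`, `X₀` and
`ρ, b > 0`, which depend only on `k` and `η`, such that for all `T`, `S₀`, all `c` and every `X ≥ X₀` there
are frequencies `θ_1, …, θ_d` with the following property. Let `B` be the Bohr set of all integers
`|h| ≤ X` with `|exp (2 π i h θ_j) - 1| ≤ ρ` for all `j`; it has at least `b X` elements. Put `W = P z!`.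
For at least `(1 - η) |B| ^ k` of the vectors `(h_1, …, h_k)` in `B ^ k` (the entries being distinct and
not zero) and for arbitrarily large `N`, the same for all these vectors, there are at least
`N / (log N) ^ C` primes `p ≤ N` such that `p_0 = p` and the `p_i = p + W h_i` are primes congruent to `c`
modulo `P`, the set `S₀ ∪ S`, `S = {- p_0, …, - p_k}`, is a subset of the class with `#S₀ + k + 1`
elements, independent modulo squares, and

* the pair `(T, S₀ ∪ S)` is good if and only if the pair `(T, S₀)` is good;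
* in this case `Holds T (S₀ ∪ S)`.

That `Holds T S` is true for good pairs is part (1) of `LayersProducts` (this problem), where also one
infinite tower of extensions of each good pair is constructed. New here: the matrices over `𝔽₂` of the
products with the `- p_i` do not change (`Pool.Agent.V11161.BH.det_mul_DD`), and the configurations of
the primes (`Pool.Agent.V11161.BH.bohrAPU`, uniform in the modulus).
-/

set_option autoImplicit false

open Filter

namespace Pool.Agent.Results.MP_009fd8_ag.ClustersOverLayers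

open Pool.Agent.Results.MP_787500_nt.LayersBlochKatoLaw (Adm Small)

open Pool.Agent.Results.MP_0b9e0b_ag.MultiquadraticProducts (IsBase)

open Pool.Agent.Results.MP_009fd8_ag.LayersProducts (Good Holds)

/-- the modulus `P = 504 ∏_{M ∈ T} |M| ∏_{d ∈ S₀} |d|` -/
def modulus (T S₀ : Finset ℤ) : ℕ := 504 * ((∏ M ∈ T, M.natAbs) * ∏ d ∈ S₀, d.natAbs)

/-- `c` is prime to `P`, `3` modulo `8`, a nonsquare modulo `7`, inert in the cyclotomic `ℤ₃`-extension
(`2`, `4`, `5`, `7` modulo `9`), and a square modulo the prime divisors `1` modulo `8` of the elements of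
`T` and `S₀` -/
def Residue (T S₀ : Finset ℤ) (c : ℕ) : Prop :=
  c.Coprime (modulus T S₀) ∧ c % 8 = 3 ∧ (c % 7 = 3 ∨ c % 7 = 5 ∨ c % 7 = 6) ∧
    (c % 9 = 2 ∨ c % 9 = 4 ∨ c % 9 = 5 ∨ c % 9 = 7) ∧
    ∀ M ∈ T ∪ S₀, ∀ l : ℕ, l.Prime → (l : ℤ) ∣ M → l % 8 = 1 → IsSquare (c : ZMod l)

/-- `x* = ± x`, congruent to `1` modulo `4` for odd `x` -/
def star (x : ℤ) : ℤ := if x % 4 = 1 then x else -x

/-- the numbers `p, p + W h_1, …, p + W h_k` -/
def members {k : ℕ} (W : ℕ) (h : Fin k → ℤ) (p : ℕ) : Fin (k + 1) → ℤ :=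
  Fin.cons (p : ℤ) fun i => (p : ℤ) + W * h i

/-- the set of the `x*`, `x` running through the members of the cluster -/
noncomputable def stars {k : ℕ} (W : ℕ) (h : Fin k → ℤ) (p : ℕ) : Finset ℤ :=
  (Finset.univ : Finset (Fin (k + 1))).image fun i => star (members W h p i)

/-- the statement on `T`, `S₀` and the set `S` of the cluster -/
def Statement (T S₀ S : Finset ℤ) : Prop :=
  (Good T (S₀ ∪ S) ↔ Good T S₀) ∧ (Good T S₀ → Holds T (S₀ ∪ S))

/-- the primes `p ≤ N` of the class of `c` for which all the `p + W h_i` are primes of the class, the set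
`S` of the cluster adds `k + 1` elements to `S₀`, `S₀ ∪ S` is a subset of the class `Adm`, independent
modulo squares, and the statement holds -/
def goodPrimes {k : ℕ} (T S₀ : Finset ℤ) (c W : ℕ) (h : Fin k → ℤ) (N : ℕ) : Set ℕ :=
  {p : ℕ | p ≤ N ∧ p.Prime ∧ p % modulus T S₀ = c % modulus T S₀ ∧
    (∀ i, ∃ q : ℕ, q.Prime ∧ q % modulus T S₀ = c % modulus T S₀ ∧ (q : ℤ) = p + W * h i) ∧
    (S₀ ∪ stars W h p).card = S₀.card + (k + 1) ∧ IsBase (S₀ ∪ stars W h p) ∧
    Statement T S₀ (stars W h p)}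

/-- the Bohr set of the frequencies `θ_j`, of radius `ρ` and width `X` -/
def bohrSet {d : ℕ} (θ : Fin d → ℝ) (ρ : ℝ) (X : ℕ) : Set ℤ :=
  {h : ℤ | |h| ≤ X ∧ ∀ j, ‖Complex.exp (2 * Real.pi * Complex.I * (h * θ j)) - 1‖ ≤ ρ}

open Pool.Agent.V11161.BH in
theorem classPrimes_sub {k : ℕ} {T S₀ : Finset ℤ} (hT : ∀ M ∈ T, Adm M) (hS₀ : IsBase S₀) {c W : ℕ}
    (hc : Residue T S₀ c) {h : Fin k → ℤ} (hh0 : ∀ i, h i ≠ 0)
    (hinj : Function.Injective h) (hW : 0 < W) (N : ℕ) :
    classPrimes (modulus T S₀) c W h N ⊆ goodPrimes T S₀ c W h N := by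
  intro p hp
  obtain ⟨c1, c2, c3, c4, c5⟩ := hc
  obtain ⟨g1, g2, -, g4⟩ := cluster_base hT hS₀ (P := modulus T S₀) dvd_rfl c1 c2 c3 c4 c5
    hh0 hinj hW hp
  exact ⟨hp.1, hp.2.1, hp.2.2.1, hp.2.2.2, g1, g2, g4, fun hg =>
    LayersProducts.result.1 T _ g2 (g4.2 hg)⟩

lemma exists_residue {T S₀ : Finset ℤ} (hT : ∀ M ∈ T, Adm M) (hS₀ : ∀ d ∈ S₀, Adm d) :
    ∃ c, Residue T S₀ c := by
  have hcop1 : ∀ M : ℤ, Adm M → Nat.Coprime 504 M.natAbs := by
    intro M hM
    refine Nat.Coprime.symm (Nat.coprime_of_dvd fun p hp hpM hp5 => ?_)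
    obtain ⟨h1, h9⟩ := hM.2.2.2 p hp (Int.natCast_dvd.2 hpM)
    have h5 : p ∣ 2 ^ 3 * (3 ^ 2 * 7) := by norm_num; exact hp5
    have h6 : p = 2 ∨ p = 3 ∨ p = 7 := by
      rcases (Nat.Prime.dvd_mul hp).1 h5 with h | h
      · exact Or.inl ((Nat.prime_dvd_prime_iff_eq hp Nat.prime_two).1 (hp.dvd_of_dvd_pow h))
      · rcases (Nat.Prime.dvd_mul hp).1 h with h | h
        · exact Or.inr (Or.inl ((Nat.prime_dvd_prime_iff_eq hp Nat.prime_three).1
            (hp.dvd_of_dvd_pow h)))
        · exact Or.inr (Or.inr ((Nat.prime_dvd_prime_iff_eq hp (by norm_num)).1 h))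
    rcases h6 with rfl | rfl | rfl
    · rcases h1 with h1 | h1
      · have := h1.2.1
        omega
      · rcases h1.2.1 with h | h <;> omega
    · omega
    · rcases h1 with h1 | h1
      · rcases h1.2.2 with h | h | h <;> omega
      · rcases h1.2.2 with h | h | h <;> omega
  set Q : ℕ := (∏ M ∈ T, M.natAbs) * ∏ d ∈ S₀, d.natAbs with hQ
  have hcop : Nat.Coprime 504 Q := Nat.Coprime.mul_right
    (Nat.Coprime.prod_right fun M hM => hcop1 M (hT M hM))
    (Nat.Coprime.prod_right fun M hM => hcop1 M (hS₀ M hM))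
  obtain ⟨c, hc1, hc2⟩ := Nat.chineseRemainder hcop 227 1
  have e8 : c % 8 = 3 := hc1.of_dvd (by norm_num : (8 : ℕ) ∣ 504)
  have e7 : c % 7 = 3 := hc1.of_dvd (by norm_num : (7 : ℕ) ∣ 504)
  have e9 : c % 9 = 2 := hc1.of_dvd (by norm_num : (9 : ℕ) ∣ 504)
  refine ⟨c, ?_, e8, Or.inl e7, Or.inl e9, fun M hM l hl hlM _ => ?_⟩
  · refine Nat.Coprime.mul_right ?_ ?_
    · rw [Nat.coprime_iff_gcd_eq_one, hc1.gcd_eq]
      decide
    · rw [Nat.coprime_iff_gcd_eq_one, hc2.gcd_eq]
      exact Nat.gcd_one_left _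
  · have h1 : l ∣ Q := by
      rcases Finset.mem_union.1 hM with h | h
      · exact ((Int.natCast_dvd.1 hlM).trans (Finset.dvd_prod_of_mem _ h)).trans (Dvd.intro _ rfl)
      · exact ((Int.natCast_dvd.1 hlM).trans (Finset.dvd_prod_of_mem _ h)).trans
          (Dvd.intro_left _ rfl)
    have h2 : (c : ZMod l) = ((1 : ℕ) : ZMod l) :=
      (ZMod.natCast_eq_natCast_iff _ _ _).2 (hc2.of_dvd h1)
    rw [h2, Nat.cast_one]
    exact ⟨1, (one_mul 1).symm⟩

/-- **Main theorem.** For all finite subsets `T`, `S₀` of the class, `S₀` independent modulo squares, there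
are classes `c` with `Residue T S₀ c`, and for all of them and for almost all the configurations in Bohr
sets there are many clusters of primes such that with `S = {p_0*, …, p_k*}` the pair `(T, S₀ ∪ S)` is good
if and only if `(T, S₀)` is good, and then for the motives of the products of powers of the `E_M`,
`M ∈ T`, over all the fields `F = K(√d : d ∈ S₀ ∪ S)`, `K` a layer of the cyclotomic `ℤ₃`-extension, the
2-adic Abel–Jacobi map is an isomorphism onto `H¹_f`, both groups being zero. -/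
theorem result (k : ℕ) (η : ℝ) (hη : 0 < η) :
    ∃ (z d C X₀ : ℕ) (ρ b : ℝ), 0 < ρ ∧ 0 < b ∧
      ∀ T S₀ : Finset ℤ, (∀ M ∈ T, Adm M) → IsBase S₀ → (∃ c, Residue T S₀ c) ∧
        ∀ c : ℕ, Residue T S₀ c → ∀ X : ℕ, X₀ ≤ X →
        ∃ (θ : Fin d → ℝ) (H : Finset (Fin k → ℤ)),
          b * X ≤ ((bohrSet θ ρ X).ncard : ℝ) ∧
          (∀ h ∈ H, (∀ i, h i ∈ bohrSet θ ρ X ∧ h i ≠ 0) ∧ Function.Injective h) ∧
          (1 - η) * ((bohrSet θ ρ X).ncard : ℝ) ^ k ≤ (H.card : ℝ) ∧
          ∃ᶠ N : ℕ in atTop, ∀ h ∈ H, (N : ℝ) / (Real.log N) ^ C ≤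
            ((goodPrimes T S₀ c (modulus T S₀ * z.factorial) h N).ncard : ℝ) := by
  obtain ⟨z, d, C, X₀, ρ, b, hρ, hb, hS⟩ := Pool.Agent.V11161.BH.bohrAPU k η hη
  refine ⟨z, d, C, X₀, ρ, b, hρ, hb, fun T S₀ hT hS₀ => ⟨exists_residue hT hS₀.1,
    fun c hc X hX => ?_⟩⟩
  have hP0 : 0 < modulus T S₀ := Nat.mul_pos (by norm_num) (Nat.mul_pos
    (Finset.prod_pos fun M hM => Int.natAbs_pos.2 (hT M hM).1.ne_zero)
    (Finset.prod_pos fun M hM => Int.natAbs_pos.2 (hS₀.1 M hM).1.ne_zero))
  obtain ⟨θ, H, h1, h2, h3, h4⟩ := hS (modulus T S₀) hP0 c hc.1 X hX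
  refine ⟨θ, H, h1, h2, h3, h4.mono fun N hN h hh => (hN h hh).trans ?_⟩
  rw [Nat.cast_le]
  refine Set.ncard_le_ncard (classPrimes_sub hT hS₀ hc (fun i => ((h2 h hh).1 i).2)
    (h2 h hh).2 (Nat.mul_pos hP0 z.factorial_pos) N) ((Set.finite_Iic N).subset fun p hp => hp.1)

end Pool.Agent.Results.MP_009fd8_ag.ClustersOverLayers
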