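import Pool.Agent.H255R.MR.Map

/-!
# The p-adic Abel-Jacobi maps onto the Selmer groups of products of regular surfaces and of curves
-/

open CategoryTheory AlgebraicGeometry

universe u v w x

namespace Pool.Agent.Results.MP_009fd8_ag.RegularSurfaces

open Pool.Agent.H914 Pool.Agent.H914.VarClass Pool.Agent.H914.VarClass.Obj Pool.Agent.W492.BB
  Pool.Agent.W550.Corr Pool.Agent.TH133 Pool.Agent.H255R.HR Pool.Agent.H255R.MR

/-- The linearized `p`-adic Abel-Jacobi map `φ` of the variety `X` is injective, with image the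
Bloch-Kato Selmer group, in the codimensions `r ≤ R` (the classes of codimension `r` are those of the
families `𝓜` and `𝓓`). -/
def AJOntoSelmer {k : Type u} [Field k] {𝒱 : VarClass k} {C : TheoryData.{u, v, 0} 𝒱 ℚ}
    {M D : ModData.{u, v, x} C} (φ : ∀ X, M.A X → D.A X) (𝓜 : Fam M) (𝓓 : Fam D) (R : ℤ)
    (X : 𝒱.Obj) : Prop :=
  InjUpTo φ 𝓜 R X ∧ SurjUpTo φ 𝓜 𝓓 R X

/-- Consider the smooth projective varieties `X` over `ℚ̄`. Let `M(X)` be the sum over `r` of the
groups `CH^r(X)^0 ⊗ ℚ_p`, let `D(X)` be the sum over `r` of the direct limits of the Bloch-Kato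
Selmer groups `H^1_f(K, H^{2r-1}(X, ℚ_p(r)))`, over the number fields `K` and the models of `X` over
`K`, and let `φ` be the `p`-adic Abel-Jacobi map. (Both sides satisfy Galois descent; therefore `φ`
is bijective in codimension `r` if and only if this holds for all models of `X` over number
fields. The problem concerns the polarized motives of weight `-1`; every motive of weight `-1` is a
direct summand of one of these.) More generally, let `φ : M → D` be a transformation of module
theories over the Chow groups, where `M` and `D` are graded.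

Let `𝒞` be a class of curves with `HasGalQuotients` (for example all curves, or one hyperelliptic
curve). For all varieties `U` and all `R` and `N` the following statements are equivalent.

1. The maps `φ` are bijective in codimension at most `R` for the varieties `U × A` and `U × A × S`,
where `A` is a product of at most `N` regular surfaces dominated by products of two curves in `𝒞`,
and `S` is a curve in `𝒞`.
2. The same without the condition that the surfaces be regular.
3. The maps `φ` are bijective in codimension at most `R` for `U × W`, where `W` is a product of at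
most `2 N + 1` curves in `𝒞`.
4. The maps `φ` are bijective in codimension at most `R` for all varieties which are dominated by
varieties `U × W` as in 3. -/
theorem result {k : Type u} [Field k] {𝒱 : VarClass k} (C : TheoryData.{u, v, 0} 𝒱 ℚ)
    [IsChowProj C] {F : Type w} [Field F] [CharZero F] (H : WeilTheoryData.{u, v, w} C F)
    [IsWeilProj H] (M D : ModData.{u, v, x} C) (hM : IsModTheory M) (hD : IsModTheory D)
    (φ : ∀ X, M.A X → D.A X) (hφ : IsTransformation M D φ) (𝓜 : Fam M) (𝓓 : Fam D)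
    (𝒞 : 𝒱.Obj → Prop) (hG : HasGalQuotients.{u, v, w, x} H 𝒞) (U : 𝒱.Obj) (R : ℤ) (N : ℕ) :
    List.TFAE [
      ∀ m ≤ N, ∀ A : 𝒱.Obj, IsProdOf U (IsRegDominated.{u, v, w, x} H 𝒞) m A →
        AJOntoSelmer φ 𝓜 𝓓 R A ∧ ∀ S : 𝒱.Obj, 𝒞 S → AJOntoSelmer φ 𝓜 𝓓 R (A.prod S),
      ∀ m ≤ N, ∀ A : 𝒱.Obj, IsProdOf U (IsDominated.{u, v, x} C 𝒞) m A →
        AJOntoSelmer φ 𝓜 𝓓 R A ∧ ∀ S : 𝒱.Obj, 𝒞 S → AJOntoSelmer φ 𝓜 𝓓 R (A.prod S),
      ∀ l ≤ 2 * N + 1, ∀ W : 𝒱.Obj, IsProdOf U 𝒞 l W → AJOntoSelmer φ 𝓜 𝓓 R W,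
      ∀ l ≤ 2 * N + 1, ∀ W X : 𝒱.Obj, IsProdOf U 𝒞 l W → IsDominatedBy C W X → AJOntoSelmer φ 𝓜 𝓓 R X] :=
  tfaeM (M := M) (M' := D) (𝓜 := kerFam hφ 𝓜) (𝓝 := zeroFam M) (𝓜' := 𝓓) (𝓝' := imFam hφ 𝓜)
    hG U R N _ fun X => and_congr (good_inj hφ 𝓜 R X).symm (good_surj hφ 𝓜 𝓓 R X).symm

end Pool.Agent.Results.MP_009fd8_ag.RegularSurfaces
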