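import Pool.Agent.Results.MP_009fd8_ag.LayersProducts
import Pool.Agent.V1110.SpB

/-!
# Abel–Jacobi maps of products of twists over multiquadratic extensions of the layers of the cyclotomic
# `ℤ₃`-extension: exact proportions and infinite towers with discriminants in a sparse sequence

`E_M` is the quadratic twist by `M` of `X_0(14)`. The hand-in `LayersProducts` of this problem treats the
motives `h¹(X)(1)`, `X` a product of powers of curves `E_M`, `M ∈ T`, over the fields `K(√d : d ∈ S)`, `K` a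
layer of the cyclotomic `ℤ₃`-extension of `ℚ`, for arbitrary finite subsets `T`, `S` of a class of
squarefree integers (`S` independent modulo squares): the Kummer map is an isomorphism onto `H¹_f`, both
groups being zero, for the twists by a proportion of exactly `c^(#B 2^#S)` of the `D` of the class.

Here `D` runs through the elements of the class in the sequence `s ⌊α n ^ p⌋` (`s = ± 1`), where `p > 1`
is any real number: a sparse sequence (about `X^{1/p}` integers up to `X`). The theorem: there is one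
set `A₀` of real numbers of Hausdorff dimension smaller than one such that for all real `α > 0` outside
`A₀` the proportion is the same, for both signs and for ALL `S` and `B`, and the infinite towers of
fields can be generated by the square roots of terms of the sequence, with arbitrary signs.
-/

set_option autoImplicit false

open Filter Topology

namespace Pool.Agent.Results.MP_009fd8_ag.SparseSequences

open Pool.Agent.Results.MP_787500_nt.LayersBlochKatoLaw (Adm Small count cc Proportion Many)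
open Pool.Agent.Results.MP_0b9e0b_ag.MultiquadraticProducts (IsBase IsFamily IsTwists Criterion)
open Pool.Agent.Results.MP_009fd8_ag.LayersProducts

/-- the number of the `1 ≤ n ≤ N` such that `D = s ⌊α n ^ p⌋` has the property `Q` -/
noncomputable def along (α p : ℝ) (s : ℤ) (Q : ℤ → Prop) (N : ℕ) : ℕ :=
  Nat.card {n : ℕ // (1 ≤ n ∧ n ≤ N) ∧ Q (s * (⌊α * (n : ℝ) ^ p⌋₊ : ℤ))}

/-- `D` is in the class, and for the set `T` of the squarefree parts of the `b D`, `b ∈ B`, a set of `#B`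
elements, `Good T S` and `Holds T S` are true -/
def Event (B S : Finset ℤ) (D : ℤ) : Prop :=
  Adm D ∧ Criterion B S D ∧ ∃ T : Finset ℤ, IsTwists B D T ∧ T.card = B.card ∧ Good T S ∧ Holds T S

lemma event_iff {B S : Finset ℤ} (hS : IsBase S) (hB : IsFamily B S) (D : ℤ) :
    Event B S D ↔ Adm D ∧ Criterion B S D := by
  unfold Event
  constructor
  · rintro ⟨h1, h2, -⟩
    exact ⟨h1, h2⟩
  · rintro ⟨h1, h2⟩
    obtain ⟨T, h3, h4, h5⟩ := (LayersProducts.result.2.1 S B hS hB).1 D h1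
    exact ⟨h1, h2, T, h3, h4, h5 h2, LayersProducts.result.1 T S hS (h5 h2)⟩

/-- large terms of the sequence -/
lemma exists_term {α p c : ℝ} {s : ℤ} {P Q : ℤ → Prop} (hc : 0 < c) (A : ℝ)
    (hp : Tendsto (fun N : ℕ => (along α p s P N : ℝ) / along α p s Q N) atTop (𝓝 c))
    (hQ : ∃ b : ℝ, 0 < b ∧ ∃ N₀ : ℕ, ∀ N : ℕ, N₀ ≤ N →
      b * N * (Real.log N) ^ (-A) ≤ (along α p s Q N : ℝ)) (B : ℕ) :
    ∃ n : ℕ, B < n ∧ P (s * ⌊α * (n : ℝ) ^ p⌋₊) := by
  classical
  by_contra hcon
  push Not at hcon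
  obtain ⟨b, hb, N₀, hN₀⟩ := hQ
  have h2 : ∀ N : ℕ, (along α p s P N : ℝ) ≤ (B : ℝ) := by
    intro N
    have h3 : along α p s P N =
        ((Finset.Icc 1 N).filter fun n : ℕ => P (s * ⌊α * (n : ℝ) ^ p⌋₊)).card := by
      unfold along
      refine Nat.subtype_card _ fun n => ?_
      rw [Finset.mem_filter, Finset.mem_Icc]
    have h4 : ((Finset.Icc 1 N).filter fun n : ℕ => P (s * ⌊α * (n : ℝ) ^ p⌋₊)) ⊆
        Finset.Icc 1 B := by
      intro n hn
      rw [Finset.mem_filter] at hn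
      rw [Finset.mem_Icc]
      refine ⟨(Finset.mem_Icc.1 hn.1).1, ?_⟩
      by_contra h5
      exact hcon n (by omega) hn.2
    have h5 := Finset.card_le_card h4
    rw [Nat.card_Icc, Nat.add_sub_cancel, ← h3] at h5
    exact_mod_cast h5
  have htop : Tendsto (fun N : ℕ => (along α p s Q N : ℝ)) atTop atTop := by
    obtain ⟨N₁, hN₁⟩ := Pool.Agent.V1110.SpA.beats b A (1 / 2) 1 hb (by norm_num)
    have h1 : Tendsto (fun N : ℕ => (N : ℝ) ^ (1 / 2 : ℝ)) atTop atTop :=
      (tendsto_rpow_atTop (by norm_num)).comp tendsto_natCast_atTop_atTop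
    refine tendsto_atTop_mono' _ ?_ h1
    filter_upwards [eventually_ge_atTop (max N₀ N₁)] with N hN
    have h3 := hN₀ N ((le_max_left _ _).trans hN)
    have h4 := hN₁ N ((le_max_right _ _).trans hN)
    rw [Real.rpow_neg (Real.log_natCast_nonneg N), ← div_eq_mul_inv] at h3
    have e : (1 : ℝ) - 1 / 2 = 1 / 2 := by norm_num
    rw [e, one_mul] at h4
    exact h4.trans h3
  have h3 : Tendsto (fun N : ℕ => (B : ℝ) / (along α p s Q N : ℝ)) atTop (𝓝 0) :=
    htop.const_div_atTop _
  have h4 : c ≤ 0 := by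
    refine le_of_tendsto_of_tendsto hp h3 (Eventually.of_forall fun N => ?_)
    exact div_le_div_of_nonneg_right (h2 N) (Nat.cast_nonneg _)
  linarith

/-- a number with a new prime factor is independent -/
lemma not_sq {D P q : ℤ} (hq : Prime q) (hD : Squarefree D) (h1 : q ∣ D) (h2 : ¬ q ∣ P) :
    ¬ IsSquare (P * D) := by
  rintro ⟨x, hx⟩
  have h3 : q ∣ x := by
    have h4 : q ∣ x * x := by
      rw [← hx]
      exact h1.mul_left _
    rcases hq.dvd_or_dvd h4 with h | h <;> exact h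
  have h5 : q * q ∣ P * D := by
    rw [hx]
    exact mul_dvd_mul h3 h3
  have h6 : IsCoprime (q * q) P := by
    have h7 : IsCoprime q P := hq.coprime_iff_not_dvd.2 h2
    exact h7.mul_left h7
  exact hq.not_isUnit (hD q (h6.dvd_of_dvd_mul_left h5))

/-- a large squarefree number has a new prime factor -/
lemma new_prime {D P : ℤ} (hD : Squarefree D) (hP : P ≠ 0) (h : P.natAbs < D.natAbs) :
    ∃ q : ℤ, Prime q ∧ q ∣ D ∧ ¬ q ∣ P := by
  by_contra hcon
  push Not at hcon
  have h1 : D.natAbs ∣ P.natAbs := by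
    rw [← Nat.prod_primeFactors_of_squarefree (Int.squarefree_natAbs.2 hD)]
    refine Finset.prod_primes_dvd _
      (fun q hq => (Nat.prime_of_mem_primeFactors hq).prime) fun q hq => ?_
    have h2 := hcon (q : ℤ) (Nat.prime_iff_prime_int.1 (Nat.prime_of_mem_primeFactors hq))
      (Int.natCast_dvd.2 (Nat.dvd_of_mem_primeFactors hq))
    exact Int.natCast_dvd.1 h2
  have h3 := Nat.le_of_dvd (Int.natAbs_pos.2 hP) h1
  omega

/-- **Main theorem.** Let `p > 1` be a real number. There is a set `A₀` of real numbers of Hausdorff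
dimension smaller than one such that for all real `α > 0` not in `A₀`:
(1) For `s = 1` and `s = -1`, at least `b N (log N)^(-3/4)` of the `n ≤ N` are such that
`D = s ⌊α n ^ p⌋` is in the class; for all `S`, `B` (`S` a finite subset of the class, independent modulo
squares, `B` a finite subset of the class whose elements are different modulo squares and products of
elements of `S`), among these `n` the proportion of those with `Event B S D` is exactly `c^(#B 2^#S)`:
for all the layers `K` of the cyclotomic `ℤ₃`-extension of `ℚ`, `F = K(√d : d ∈ S)` and the squarefree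
parts `M` of the `b D` the groups `E_M(F) ⊗ ℚ_2` and `H¹_f(F, V_2 E_M)` are zero.
(2) Let `Good T S` and `Apart T S` hold. Then for each sequence of signs `σ_i` there are
`n_0 < n_1 < …` such that the numbers `d_i = σ_i ⌊α n_i ^ p⌋` are different and not in `S` and for all `m` the
set `S_m = S ∪ {d_0, …, d_{m-1}}` is a subset of the class, independent modulo squares, `Apart T S_m`, and
`Holds T S_m`: for all the layers `K`, `F = K(√d : d ∈ S_m)` and `M ∈ T` the groups `E_M(F) ⊗ ℚ_2` and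
`H¹_f(F, V_2 E_M)` are zero. -/
theorem result (p : ℝ) (hp : 1 < p) :
    ∃ A₀ : Set ℝ, dimH A₀ < 1 ∧ ∀ α : ℝ, 0 < α → α ∉ A₀ →
      (∀ s : ℤ, (s = 1 ∨ s = -1) →
        (∃ b : ℝ, 0 < b ∧ ∃ N₀ : ℕ, ∀ N : ℕ, N₀ ≤ N →
          b * N * (Real.log N) ^ (-(3 / 4) : ℝ) ≤ (along α p s Adm N : ℝ)) ∧
        ∀ S B : Finset ℤ, IsBase S → IsFamily B S →
          Tendsto (fun N : ℕ => (along α p s (Event B S) N : ℝ) / along α p s Adm N) atTop
            (𝓝 (cc ^ (B.card * 2 ^ S.card)))) ∧
      ∀ T S : Finset ℤ, IsBase S → Good T S → Apart T S →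
        ∀ σ : ℕ → ℤ, (∀ i, σ i = 1 ∨ σ i = -1) →
        ∃ (n : ℕ → ℕ) (d : ℕ → ℤ), StrictMono n ∧ (∀ i, d i = σ i * ⌊α * (n i : ℝ) ^ p⌋₊) ∧
          Function.Injective d ∧ (∀ i, d i ∉ S) ∧
          ∀ m, IsBase (S ∪ (Finset.range m).image d) ∧ Apart T (S ∪ (Finset.range m).image d) ∧
            Holds T (S ∪ (Finset.range m).image d) := by
  obtain ⟨A₀, hA₀, h⟩ := Pool.Agent.V1110.SpA.ratio_int p hp
    (ι := Finset ℤ × Finset ℤ) (fun v => Event v.1 v.2) (fun _ => Adm)
  refine ⟨A₀, hA₀, fun α hα hαA => ?_⟩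
  have hcount : ∀ (s : ℤ) (X : ℕ), count (fun D => Adm D ∧ 0 < s * D) X =
      Nat.card {D : ℤ // |D| ≤ X ∧ 0 < s * D ∧ Adm D} := by
    intro s X
    unfold count
    refine Nat.card_congr (Equiv.subtypeEquivRight fun D => ?_)
    tauto
  have key : ∀ s : ℤ, (s = 1 ∨ s = -1) → ∀ S B : Finset ℤ, IsBase S → IsFamily B S →
      Tendsto (fun N : ℕ => (along α p s (Event B S) N : ℝ) / along α p s Adm N) atTop
          (𝓝 (cc ^ (B.card * 2 ^ S.card))) ∧
        ∃ b : ℝ, 0 < b ∧ ∃ N0 : ℕ, ∀ N : ℕ, N0 ≤ N →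
          b * N * (Real.log N) ^ (-(3 / 4) : ℝ) ≤ (along α p s Adm N : ℝ) := by
    intro s hs S B hS hB
    obtain ⟨hmany, hprop⟩ := (LayersProducts.result.2.1 S B hS hB).2 s hs
    obtain ⟨a, X₀, ha, hX₀⟩ := hmany
    have hQ : ∃ X0 : ℕ, ∀ X : ℕ, X0 ≤ X → a * X * (Real.log X) ^ (-(3 / 4) : ℝ) ≤
        (Nat.card {D : ℤ // |D| ≤ X ∧ 0 < s * D ∧ Adm D} : ℝ) :=
      ⟨X₀, fun X hX => by
        rw [← hcount]
        exact hX₀ X hX⟩
    refine h α hα hαA (B, S) s hs _ a (3 / 4) ha (by norm_num) hQ ?_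
    unfold Proportion at hprop
    refine hprop.congr fun X => ?_
    rw [hcount]
    have e : count (fun D => Adm D ∧ 0 < s * D ∧ Criterion B S D) X =
        Nat.card {D : ℤ // |D| ≤ X ∧ 0 < s * D ∧ Event B S D} := by
      unfold count
      refine Nat.card_congr (Equiv.subtypeEquivRight fun D => ?_)
      rw [event_iff hS hB]
      tauto
    rw [e]
  have h0 : IsBase ∅ := ⟨fun d hd => absurd hd (Finset.notMem_empty d), fun T hT hT' => by
    rw [Finset.subset_empty] at hT
    subst hT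
    exact absurd hT' Finset.not_nonempty_empty⟩
  have h1 : IsFamily ∅ ∅ := ⟨fun d hd => absurd hd (Finset.notMem_empty d),
    fun b hb => absurd hb (Finset.notMem_empty b)⟩
  refine ⟨fun s hs => ⟨(key s hs ∅ ∅ h0 h1).2, fun S B hS hB => (key s hs S B hS hB).1⟩,
    fun T S hS hT hA σ hσ => ?_⟩
  -- the towers
  have hcc : 0 < cc := by
    have h2 : (0.4194 : ℝ) < cc := LayersProducts.result.2.2.1.1
    linarith
  obtain ⟨M₁, hM₁⟩ := Pool.Agent.Y854.GM.last_ge hα hp
  have step : ∀ (s : {s : ℤ // s = 1 ∨ s = -1})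
      (U : {U : Finset ℤ × ℕ // IsBase U.1 ∧ Good T U.1 ∧ Apart T U.1}),
      ∃ n : ℕ, U.1.2 < n ∧ (s.1 * (⌊α * (n : ℝ) ^ p⌋₊ : ℤ)) ∉ U.1.1 ∧
        (IsBase (insert (s.1 * (⌊α * (n : ℝ) ^ p⌋₊ : ℤ)) U.1.1) ∧
          Good T (insert (s.1 * (⌊α * (n : ℝ) ^ p⌋₊ : ℤ)) U.1.1) ∧
          Apart T (insert (s.1 * (⌊α * (n : ℝ) ^ p⌋₊ : ℤ)) U.1.1)) := by
    rintro ⟨s, hs⟩ ⟨⟨U, B⟩, hU, hG, hAp⟩
    have hfam : IsFamily T U := ⟨hG.1, hAp⟩
    obtain ⟨k1, k2⟩ := key s hs U T hU hfam
    set P : ℤ := (∏ x ∈ U, x) * ∏ x ∈ T, x with hP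
    have hP0 : P ≠ 0 := by
      rw [hP]
      refine mul_ne_zero (Finset.prod_ne_zero_iff.2 fun x hx => (hU.1 x hx).1.ne_zero)
        (Finset.prod_ne_zero_iff.2 fun x hx => (hG.1 x hx).1.ne_zero)
    obtain ⟨n, hn, hev⟩ := exists_term (pow_pos hcc _) (3 / 4) k1 k2 (max B (max M₁ P.natAbs))
    have hD := hev.1
    have hcr := hev.2.1
    set D : ℤ := s * (⌊α * (n : ℝ) ^ p⌋₊ : ℤ) with hDdef
    have hDn : D.natAbs = ⌊α * (n : ℝ) ^ p⌋₊ := by
      rw [hDdef, Int.natAbs_mul, Int.natAbs_natCast]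
      rcases hs with rfl | rfl <;> simp
    have hlt : P.natAbs < D.natAbs := by
      rw [hDn]
      have h2 : P.natAbs < n := lt_of_le_of_lt ((le_max_right _ _).trans (le_max_right _ _)) hn
      have h3 : M₁ ≤ n := ((le_max_left _ _).trans (le_max_right _ _)).trans hn.le
      exact lt_of_lt_of_le h2 (hM₁ n h3)
    obtain ⟨q, hq, hqD, hqP⟩ := new_prime hD.1 hP0 hlt
    have hqU : ∀ V ⊆ U, ¬ q ∣ ∏ x ∈ V, x := by
      intro V hV hdvd
      refine hqP ?_
      rw [hP]
      exact Dvd.dvd.mul_right (hdvd.trans (Finset.prod_dvd_prod_of_subset _ _ _ hV)) _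
    have hqT : ∀ M ∈ T, ¬ q ∣ M := by
      intro M hM hdvd
      refine hqP ?_
      rw [hP]
      exact Dvd.dvd.mul_left (hdvd.trans (Finset.dvd_prod_of_mem _ hM)) _
    have hDU : D ∉ U := by
      intro hmem
      have h2 := hqU {D} (Finset.singleton_subset_iff.2 hmem)
      rw [Finset.prod_singleton] at h2
      exact h2 hqD
    -- subsets of the new set
    have hsub : ∀ V ⊆ insert D U, D ∉ V → V ⊆ U := by
      intro V hV hDV x hx
      rcases Finset.mem_insert.1 (hV hx) with rfl | h2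
      · exact absurd hx hDV
      · exact h2
    have hsub' : ∀ V ⊆ insert D U, V.erase D ⊆ U := by
      intro V hV
      exact hsub _ ((Finset.erase_subset _ _).trans hV) (Finset.notMem_erase _ _)
    refine ⟨n, lt_of_le_of_lt (le_max_left _ _) hn, hDU, ⟨fun x hx => ?_, fun V hV hVn => ?_⟩,
      ⟨hG.1, fun M hM V hV D' k hD' hk => ?_⟩, fun M hM M' hM' hne V hV => ?_⟩
    · rcases Finset.mem_insert.1 hx with rfl | h2
      · exact hD
      · exact hU.1 x h2
    · by_cases hDV : D ∈ V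
      · rw [← Finset.prod_erase_mul _ _ hDV]
        exact not_sq hq hD.1 hqD (hqU _ (hsub' V hV))
      · exact hU.2 V (hsub V hV hDV) hVn
    · by_cases hDV : D ∈ V
      · refine hcr M hM (V.erase D) (hsub' V hV) D' k hD' ?_
        rw [← hk, ← Finset.prod_erase_mul _ _ hDV]
        ring
      · exact hG.2 M hM V (hsub V hV hDV) D' k hD' hk
    · by_cases hDV : D ∈ V
      · rw [← Finset.prod_erase_mul _ _ hDV, ← mul_assoc]
        refine not_sq hq hD.1 hqD fun h2 => ?_
        rcases hq.dvd_or_dvd h2 with h3 | h3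
        · rcases hq.dvd_or_dvd h3 with h4 | h4
          · exact hqT M hM h4
          · exact hqT M' hM' h4
        · exact hqU _ (hsub' V hV) h3
      · exact hAp M hM M' hM' hne V (hsub V hV hDV)
  choose f hf using step
  let g : {s : ℤ // s = 1 ∨ s = -1} →
      {U : Finset ℤ × ℕ // IsBase U.1 ∧ Good T U.1 ∧ Apart T U.1} →
      {U : Finset ℤ × ℕ // IsBase U.1 ∧ Good T U.1 ∧ Apart T U.1} := fun s U =>
    ⟨(insert (s.1 * (⌊α * (f s U : ℝ) ^ p⌋₊ : ℤ)) U.1.1, f s U), (hf s U).2.2⟩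
  let V : ℕ → {U : Finset ℤ × ℕ // IsBase U.1 ∧ Good T U.1 ∧ Apart T U.1} := fun i =>
    Nat.rec ⟨(S, 0), hS, hT, hA⟩ (fun i U => g ⟨σ i, hσ i⟩ U) i
  have hV : ∀ i, V (i + 1) = g ⟨σ i, hσ i⟩ (V i) := fun i => rfl
  let n : ℕ → ℕ := fun i => f ⟨σ i, hσ i⟩ (V i)
  let d : ℕ → ℤ := fun i => σ i * (⌊α * (n i : ℝ) ^ p⌋₊ : ℤ)
  have hV1 : ∀ i, (V (i + 1)).1.1 = insert (d i) (V i).1.1 := fun i => by
    rw [hV]
  have hV2 : ∀ i, (V (i + 1)).1.2 = n i := fun i => by
    rw [hV]
  have hset : ∀ m, (V m).1.1 = S ∪ (Finset.range m).image d := by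
    intro m
    induction m with
    | zero =>
      rw [Finset.range_zero, Finset.image_empty, Finset.union_empty]
      rfl
    | succ m ih =>
      rw [hV1, ih, Finset.range_add_one, Finset.image_insert, Finset.union_insert]
  have hnot : ∀ i, d i ∉ (V i).1.1 := fun i => (hf ⟨σ i, hσ i⟩ (V i)).2.1
  refine ⟨n, d, strictMono_nat_of_lt_succ fun i => ?_, fun i => rfl, ?_, fun i hi => ?_, fun m => ?_⟩
  · have h2 := (hf ⟨σ (i + 1), hσ (i + 1)⟩ (V (i + 1))).1
    rw [hV2] at h2
    exact h2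
  · have hlt : ∀ i j, i < j → d i ≠ d j := by
      intro i j hij he
      refine hnot j ?_
      rw [hset j, ← he]
      exact Finset.mem_union_right _ (Finset.mem_image_of_mem _ (Finset.mem_range.2 hij))
    intro i j he
    rcases lt_trichotomy i j with h2 | h2 | h2
    · exact absurd he (hlt i j h2)
    · exact h2
    · exact absurd he.symm (hlt j i h2)
  · refine hnot i ?_
    rw [hset i]
    exact Finset.mem_union_left _ hi
  · have h2 := (V m).2
    rw [hset m] at h2
    exact ⟨h2.1, h2.2.2, LayersProducts.result.1 T _ h2.1 h2.2.1⟩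

end Pool.Agent.Results.MP_009fd8_ag.SparseSequences
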